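import Mathlib
import Pool.Agent.Helper91.PolyTime.Typed

/-!
# From exactly-one constraints of any size to exactly-one constraints of size three
-/

open Function
open Pool.Agent.Helper91.PolyTime

namespace Pool.Agent.Helper97.NLT

/-- Exactly one of three Booleans is true. -/
def OneB (a b c : Bool) : Prop :=
  (a = true ∧ b = false ∧ c = false) ∨ (a = false ∧ b = true ∧ c = false) ∨
  (a = false ∧ b = false ∧ c = true)

instance (a b c : Bool) : Decidable (OneB a b c) := by unfold OneB; infer_instance

lemma oneB_zzu : ∀ z u : Bool, OneB z z u → z = false ∧ u = true := by decide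
lemma oneB_ppu : ∀ p : Bool, OneB p p true → p = false := by decide
lemma oneB_pzz : ∀ p : Bool, OneB p false false → p = true := by decide
lemma oneB_step : ∀ p x n p' : Bool, OneB p x n → OneB p' n false →
    p.toNat + x.toNat = p'.toNat := by decide
lemma oneB_step' : ∀ p x p' : Bool, p.toNat + x.toNat = p'.toNat → OneB p x (!p') ∧
    OneB p' (!p') false := by decide

/-- Exactly one of the three is true. -/
def One3 {ν : Type*} (τ : ν → Bool) (tr : ν × ν × ν) : Prop :=
  OneB (τ tr.1) (τ tr.2.1) (τ tr.2.2)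

/-- The names. -/
abbrev Nm (N₀ : Type*) : Type _ := Option N₀ ⊕ ((Bool × List N₀ × ℕ) ⊕ Bool)

section

variable {N₀ : Type*}

/-- The name of an original variable. -/
def nX (xs : List N₀) (i : ℕ) : Nm N₀ := .inl xs[i]?

/-- The name of a prefix sum. -/
def nP (xs : List N₀) (i : ℕ) : Nm N₀ := .inr (.inl (true, xs, i))

/-- The name of the negation of the next prefix sum. -/
def nN (xs : List N₀) (i : ℕ) : Nm N₀ := .inr (.inl (false, xs, i))

/-- The constant false. -/
def nZ : Nm N₀ := .inr (.inr false)

/-- The constant true. -/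
def nU : Nm N₀ := .inr (.inr true)

/-- The triples of a list. -/
def chain (xs : List N₀) : List (Nm N₀ × Nm N₀ × Nm N₀) :=
  (nP xs 0, nP xs 0, nU) :: (nP xs xs.length, nZ, nZ) ::
    (List.range xs.length).flatMap fun i =>
      [(nP xs i, nX xs i, nN xs i), (nP xs (i + 1), nN xs i, nZ)]

/-- The triples of a list of lists. -/
def triples (LL : List (List N₀)) : List (Nm N₀ × Nm N₀ × Nm N₀) :=
  (nZ, nZ, nU) :: LL.flatMap chain

lemma countP_step (τ : N₀ → Bool) (xs : List N₀) (i : ℕ) (hi : i < xs.length) :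
    (xs.take (i + 1)).countP τ = (xs.take i).countP τ + (τ xs[i]).toNat := by
  have hx : xs[i]? = some xs[i] := List.getElem?_eq_getElem hi
  rw [List.take_add_one, hx, Option.toList_some, List.countP_append, List.countP_singleton]
  cases τ xs[i] <;> rfl

lemma countP_of_chain (τ : Nm N₀ → Bool) (hZ : τ nZ = false) (hU : τ nU = true) (xs : List N₀)
    (h : ∀ tr ∈ chain xs, One3 τ tr) : xs.countP (fun x => τ (.inl (some x))) = 1 := by
  have h0 : OneB (τ (nP xs 0)) (τ (nP xs 0)) (τ nU) := h (nP xs 0, nP xs 0, nU) (by simp [chain])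
  have h1 : OneB (τ (nP xs xs.length)) (τ nZ) (τ nZ) :=
    h (nP xs xs.length, nZ, nZ) (by simp [chain])
  have h2 : ∀ i < xs.length, OneB (τ (nP xs i)) (τ (nX xs i)) (τ (nN xs i)) := fun i hi =>
    h (nP xs i, nX xs i, nN xs i) (by
      unfold chain
      refine List.mem_cons_of_mem _ (List.mem_cons_of_mem _ (List.mem_flatMap.2
        ⟨i, List.mem_range.2 hi, ?_⟩))
      exact List.mem_cons_self)
  have h3 : ∀ i < xs.length, OneB (τ (nP xs (i + 1))) (τ (nN xs i)) (τ nZ) := fun i hi =>
    h (nP xs (i + 1), nN xs i, nZ) (by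
      unfold chain
      refine List.mem_cons_of_mem _ (List.mem_cons_of_mem _ (List.mem_flatMap.2
        ⟨i, List.mem_range.2 hi, ?_⟩))
      exact List.mem_cons_of_mem _ List.mem_cons_self)
  rw [hU] at h0
  rw [hZ] at h1
  have key : ∀ i, i ≤ xs.length →
      (xs.take i).countP (fun x => τ (.inl (some x))) = (τ (nP xs i)).toNat := by
    intro i
    induction i with
    | zero => intro _; rw [oneB_ppu _ h0]; rfl
    | succ i ih =>
      intro hi
      have h4 := h2 i (by omega)
      have h5 := h3 i (by omega)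
      rw [hZ] at h5
      rw [countP_step _ _ _ (by omega), ih (by omega), ← oneB_step _ _ _ _ h4 h5]
      have hx : nX xs i = .inl (some xs[i]) := by
        unfold nX; rw [List.getElem?_eq_getElem (by omega)]
      rw [hx]
  have h6 := key xs.length le_rfl
  rw [List.take_length, oneB_pzz _ h1] at h6
  exact h6

/-- The extension of an assignment. -/
def extend (τ : N₀ → Bool) : Nm N₀ → Bool
  | .inl none => false
  | .inl (some x) => τ x
  | .inr (.inl (true, xs, i)) => decide ((xs.take i).countP τ = 1)
  | .inr (.inl (false, xs, i)) => !decide ((xs.take (i + 1)).countP τ = 1)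
  | .inr (.inr b) => b

lemma chain_extend (τ : N₀ → Bool) (xs : List N₀) (h : xs.countP τ = 1) :
    ∀ tr ∈ chain xs, One3 (extend τ) tr := by
  have hle : ∀ i, (xs.take i).countP τ ≤ 1 := fun i =>
    h ▸ (List.take_sublist i xs).countP_le
  have hnat : ∀ i, (decide ((xs.take i).countP τ = 1)).toNat = (xs.take i).countP τ := by
    intro i
    have := hle i
    rcases Nat.lt_or_ge ((xs.take i).countP τ) 1 with h1 | h1
    · have h2 : (xs.take i).countP τ = 0 := by omega
      rw [h2]; rfl
    · have h2 : (xs.take i).countP τ = 1 := by omega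
      rw [h2]; rfl
  intro tr htr
  unfold chain at htr
  simp only [List.mem_cons, List.mem_flatMap, List.mem_range, List.not_mem_nil, or_false] at htr
  rcases htr with rfl | rfl | ⟨i, hi, rfl | rfl⟩
  · have h1 : extend τ (nP xs 0) = false := by
      change decide ((xs.take 0).countP τ = 1) = false
      rw [List.take_zero, List.countP_nil]; rfl
    unfold One3
    simp only [h1]
    exact Or.inr (Or.inr ⟨rfl, rfl, rfl⟩)
  · have h1 : extend τ (nP xs xs.length) = true := by
      change decide ((xs.take xs.length).countP τ = 1) = true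
      rw [List.take_length, h]; rfl
    unfold One3
    simp only [h1]
    exact Or.inl ⟨rfl, rfl, rfl⟩
  all_goals
    have hx : nX xs i = .inl (some xs[i]) := by
      unfold nX; rw [List.getElem?_eq_getElem (by omega)]
    have h1 := countP_step τ xs i hi
    rw [← hnat (i + 1), ← hnat i] at h1
    have h2 := oneB_step' _ _ _ h1.symm
  · unfold One3
    simp only [hx]
    exact h2.1
  · exact h2.2

theorem triples_iff (LL : List (List N₀)) :
    (∃ τ : Nm N₀ → Bool, ∀ tr ∈ triples LL, One3 τ tr) ↔
      ∃ τ : N₀ → Bool, ∀ xs ∈ LL, xs.countP τ = 1 := by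
  constructor
  · rintro ⟨τ, h⟩
    have h0 := oneB_zzu _ _ (h (nZ, nZ, nU) List.mem_cons_self)
    exact ⟨fun x => τ (.inl (some x)), fun xs hxs => countP_of_chain τ h0.1 h0.2 xs fun tr htr =>
      h tr (List.mem_cons_of_mem _ (List.mem_flatMap.2 ⟨xs, hxs, htr⟩))⟩
  · rintro ⟨τ, h⟩
    refine ⟨extend τ, fun tr htr => ?_⟩
    unfold triples at htr
    rw [List.mem_cons, List.mem_flatMap] at htr
    rcases htr with rfl | ⟨xs, hxs, htr⟩
    · exact Or.inr (Or.inr ⟨rfl, rfl, rfl⟩)
    · exact chain_extend τ xs (h xs hxs) tr htr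

end

section ptime

variable {N₀ α : Type*} [PEnc N₀] [PEnc α]

lemma ptf_triples {LL : α → List (List N₀)} (hLL : PTF LL) : PTF (fun a => triples (LL a)) := by
  unfold triples
  refine PTF.cons (PTF.const _) (PTF.flatMap (f := fun _ xs => chain xs) hLL ?_)
  have key : PTF (fun xs : List N₀ => chain xs) := by
    unfold chain
    have hx : ∀ {β : Type _} [PEnc β] {xs : β → List N₀} {i : β → ℕ}, PTF xs → PTF i →
        PTF (fun b => nX (xs b) (i b)) := fun h h' => PTF.inl (PTF.getElem? h' h)
    have hp : ∀ {β : Type _} [PEnc β] {xs : β → List N₀} {i : β → ℕ}, PTF xs → PTF i →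
        PTF (fun b => nP (xs b) (i b)) := fun h h' =>
      PTF.inr (PTF.inl (PTF.pair (PTF.const _) (PTF.pair h h')))
    have hn : ∀ {β : Type _} [PEnc β] {xs : β → List N₀} {i : β → ℕ}, PTF xs → PTF i →
        PTF (fun b => nN (xs b) (i b)) := fun h h' =>
      PTF.inr (PTF.inl (PTF.pair (PTF.const _) (PTF.pair h h')))
    have hid : PTF (fun xs : List N₀ => xs) := PTF.id
    refine PTF.cons (PTF.pair (hp hid (PTF.const 0)) (PTF.pair (hp hid (PTF.const 0))
      (PTF.const _))) (PTF.cons (PTF.pair (hp hid (PTF.length hid)) (PTF.const _))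
      (PTF.flatMap (f := fun (xs : List N₀) (i : ℕ) =>
      [(nP xs i, nX xs i, nN xs i), (nP xs (i + 1), nN xs i, nZ)]) (PTF.range (PTF.length hid))
      ?_))
    exact PTF.cons (PTF.pair (hp PTF.id.fst PTF.id.snd) (PTF.pair (hx PTF.id.fst PTF.id.snd)
      (hn PTF.id.fst PTF.id.snd))) (PTF.cons (PTF.pair (hp PTF.id.fst (PTF.succ PTF.id.snd))
      (PTF.pair (hn PTF.id.fst PTF.id.snd) (PTF.const _))) (PTF.const _))
  exact key.comp PTF.id.snd

end ptime

end Pool.Agent.Helper97.NLT
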