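import Mathlib
import Pool.Agent.Helper91.PolyTime.Reduction
import Pool.Agent.Helper97.NLT.Chain

/-!
# From constraint satisfaction to exactly-one constraints
-/

open Function
open Pool.Agent.Helper91.PolyTime Pool.Agent.Helper91.CookLevin Pool.Agent.Helper91.Triangle
open Pool.Agent.Helper91.Reduction

namespace Pool.Agent.Helper97.NLT

lemma countP_unique {β : Type*} (l : List β) (hl : l.Nodup) (b : β) (p : β → Bool)
    (hp : ∀ x, p x = true ↔ x = b) [Decidable (b ∈ l)] : l.countP p = if b ∈ l then 1 else 0 := by
  classical
  have : l.countP p = l.count b := by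
    rw [List.count]
    congr 1
    funext x
    rw [Bool.eq_iff_iff, hp]
    simp
  rw [this]
  split_ifs with h
  · exact List.count_eq_one_of_mem hl h
  · exact List.count_eq_zero_of_not_mem h

lemma eq_of_countP_eq_one {β : Type*} {l : List β} {p : β → Bool} (h : l.countP p = 1) {a b : β}
    (ha : a ∈ l) (hb : b ∈ l) (ha' : p a = true) (hb' : p b = true) : a = b := by
  rw [List.countP_eq_length_filter, List.length_eq_one_iff] at h
  obtain ⟨x, hx⟩ := h
  have h1 : a ∈ l.filter p := List.mem_filter.2 ⟨ha, ha'⟩
  have h2 : b ∈ l.filter p := List.mem_filter.2 ⟨hb, hb'⟩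
  rw [hx, List.mem_singleton] at h1 h2
  rw [h1, h2]

section

variable {κ ι D : Type*} [DecidableEq D]

/-- The names of the Boolean variables. -/
abbrev N0 (κ ι D : Type*) : Type _ := (ι × D) ⊕ (Con κ ι × Five D)

/-- The variables of a constraint. -/
def cget (c : Con κ ι) (m : Fin 5) : ι :=
  match m with
  | 0 => c.2.1
  | 1 => c.2.2.1
  | 2 => c.2.2.2.1
  | 3 => c.2.2.2.2.1
  | 4 => c.2.2.2.2.2

/-- The components of a tuple. -/
def dget (d : Five D) (m : Fin 5) : D :=
  match m with
  | 0 => d.1
  | 1 => d.2.1
  | 2 => d.2.2.1
  | 3 => d.2.2.2.1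
  | 4 => d.2.2.2.2

omit [DecidableEq D] in
lemma dget_ext {d d' : Five D} (h : ∀ m, dget d m = dget d' m) : d = d' :=
  Prod.ext (h 0) (Prod.ext (h 1) (Prod.ext (h 2) (Prod.ext (h 3) (h 4))))

omit [DecidableEq D] in
lemma dget_vals (α : ι → D) (c : Con κ ι) (m : Fin 5) : dget (vals α c) m = α (cget c m) := by
  fin_cases m <;> rfl

/-- The list of a constraint, a position and a value. -/
def conL (all : List D) (allow : κ → List (Five D)) (c : Con κ ι) (m : Fin 5) (e : D) :
    List (N0 κ ι D) :=
  ((all.filter fun e' => !decide (e' = e)).map fun e' => Sum.inl (cget c m, e')) ++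
  (((allow c.1).filter fun d => decide (dget d m = e)).map fun d => Sum.inr (c, d))

/-- The lists. -/
def cspL (vars : List ι) (all : List D) (me : List (Fin 5 × D)) (allow : κ → List (Five D))
    (cs : List (Con κ ι)) : List (List (N0 κ ι D)) :=
  (vars.map fun v => all.map fun e => Sum.inl (v, e)) ++
  cs.flatMap fun c => me.map fun p => conL all allow c p.1 p.2

theorem cspL_iff [Nonempty D] (vars : List ι) (all : List D) (me : List (Fin 5 × D))
    (allow : κ → List (Five D)) (cs : List (Con κ ι)) (hall : ∀ d, d ∈ all) (hnd : all.Nodup)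
    (hme : ∀ p, p ∈ me) (hallow : ∀ c, (allow c).Nodup)
    (hcs : ∀ c ∈ cs, ∀ m, cget c m ∈ vars) :
    (∃ τ : N0 κ ι D → Bool, ∀ xs ∈ cspL vars all me allow cs, xs.countP τ = 1) ↔
      ∃ α : ι → D, ∀ c ∈ cs, vals α c ∈ allow c.1 := by
  classical
  constructor
  · rintro ⟨τ, h⟩
    have hv : ∀ v ∈ vars, (all.countP fun e => τ (.inl (v, e))) = 1 := by
      intro v hv
      have h1 := h _ (List.mem_append_left _ (List.mem_map.2 ⟨v, hv, rfl⟩))
      rw [List.countP_map] at h1
      exact h1
    have hex : ∀ v ∈ vars, ∃ e, τ (.inl (v, e)) = true := by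
      intro v hv'
      have h1 : 0 < all.countP fun e => τ (.inl (v, e)) := by rw [hv v hv']; exact one_pos
      rw [List.countP_pos_iff] at h1
      obtain ⟨e, -, he⟩ := h1
      exact ⟨e, he⟩
    choose! α hα using hex
    have huniq : ∀ v ∈ vars, ∀ e, τ (.inl (v, e)) = true → e = α v := fun v hv' e he =>
      eq_of_countP_eq_one (hv v hv') (hall _) (hall _) he (hα v hv')
    refine ⟨α, fun c hc => ?_⟩
    have hcon : ∀ m e, ((all.filter fun e' => !decide (e' = e)).countP
        fun e' => τ (.inl (cget c m, e'))) +
        (((allow c.1).filter fun d => decide (dget d m = e)).countP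
        fun d => τ (.inr (c, d))) = 1 := by
      intro m e
      have h1 := h (conL all allow c m e) (List.mem_append_right _ (List.mem_flatMap.2
        ⟨c, hc, List.mem_map.2 ⟨(m, e), hme _, rfl⟩⟩))
      unfold conL at h1
      rw [List.countP_append, List.countP_map, List.countP_map] at h1
      exact h1
    -- the tuple
    have h0 := hcon 0 (α (cget c 0))
    have h1 : ((all.filter fun e' => !decide (e' = α (cget c 0))).countP
        fun e' => τ (.inl (cget c 0, e'))) = 0 := by
      rw [List.countP_eq_zero]
      intro e' he' ht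
      have h2 := (List.mem_filter.1 he').2
      rw [huniq _ (hcs c hc 0) e' ht] at h2
      simp at h2
    rw [h1, zero_add] at h0
    have h2 : 0 < ((allow c.1).filter fun d => decide (dget d 0 = α (cget c 0))).countP
        fun d => τ (.inr (c, d)) := by rw [h0]; exact one_pos
    rw [List.countP_pos_iff] at h2
    obtain ⟨d, hd, hdτ⟩ := h2
    have hd' := (List.mem_filter.1 hd).1
    have h3 : ∀ m, dget (vals α c) m = dget d m := by
      intro m
      rw [dget_vals]
      by_contra hne
      have h4 := hcon m (dget d m)
      have h5 : 0 < (all.filter fun e' => !decide (e' = dget d m)).countP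
          fun e' => τ (.inl (cget c m, e')) := by
        rw [List.countP_pos_iff]
        exact ⟨α (cget c m), List.mem_filter.2 ⟨hall _, by simp [hne]⟩, hα _ (hcs c hc m)⟩
      have h6 : 0 < ((allow c.1).filter fun d' => decide (dget d' m = dget d m)).countP
          fun d => τ (.inr (c, d)) := by
        rw [List.countP_pos_iff]
        exact ⟨d, List.mem_filter.2 ⟨hd', by simp⟩, hdτ⟩
      omega
    rw [dget_ext h3]
    exact hd'
  · rintro ⟨α, h⟩
    refine ⟨fun x => match x with
      | .inl (v, e) => decide (α v = e)
      | .inr (c, d) => decide (vals α c = d), fun xs hxs => ?_⟩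
    unfold cspL at hxs
    rw [List.mem_append, List.mem_map, List.mem_flatMap] at hxs
    rcases hxs with ⟨v, -, rfl⟩ | ⟨c, hc, hxs⟩
    · rw [List.countP_map, countP_unique all hnd (α v), if_pos (hall _)]
      intro x
      simp only [comp_apply, decide_eq_true_eq]
      exact eq_comm
    · rw [List.mem_map] at hxs
      obtain ⟨⟨m, e⟩, -, rfl⟩ := hxs
      unfold conL
      rw [List.countP_append, List.countP_map, List.countP_map,
        countP_unique _ (hnd.filter _) (α (cget c m)), countP_unique _ ((hallow _).filter _)
        (vals α c)]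
      · have h1 := h c hc
        have h2 := dget_vals α c m
        by_cases h3 : α (cget c m) = e
        · rw [if_neg, if_pos]
          · rw [List.mem_filter]
            exact ⟨h1, by rw [h2]; simpa using h3⟩
          · rw [List.mem_filter]
            simp [h3]
        · rw [if_pos, if_neg]
          · rw [List.mem_filter]
            rw [h2]
            simp [h3]
          · rw [List.mem_filter]
            exact ⟨hall _, by simpa using h3⟩
      · intro x
        simp only [comp_apply, decide_eq_true_eq]
        exact eq_comm
      · intro x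
        simp only [comp_apply, decide_eq_true_eq]
        exact eq_comm

end

section ptime

variable {κ ι D α : Type*} [DecidableEq D] [PEnc ι] [PEnc D] [PEnc α]

lemma ptf_cspL [Finite κ] [PEnc κ] {vars : α → List ι} {all : List D} {me : List (Fin 5 × D)}
    [Finite D] {allow : κ → List (Five D)} {cs : α → List (Con κ ι)}
    (hvars : PTF vars) (hcs : PTF cs) : PTF (fun a => cspL (vars a) all me allow (cs a)) := by
  unfold cspL
  refine PTF.append ?_ ?_
  · refine PTF.map (f := fun _ v => all.map fun e => Sum.inl (v, e)) hvars ?_
    exact PTF.map (l := fun _ : α × ι => all) (f := fun p e => Sum.inl (p.2, e)) (PTF.const _)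
      (PTF.inl (PTF.pair PTF.id.fst.snd PTF.id.snd))
  · refine PTF.flatMap (f := fun _ c => me.map fun p => conL all allow c p.1 p.2) hcs ?_
    have hfin : ∀ c : α × Con κ ι → Con κ ι, PTF c → ∀ l : List (Fin 5 × D),
        PTF (fun p => l.map fun q => conL all allow (c p) q.1 q.2) := by
      intro c hc l
      induction l with
      | nil => exact PTF.const _
      | cons q l ih =>
        refine PTF.cons ?_ ih
        unfold conL
        refine PTF.append ?_ ?_
        · refine PTF.map (l := fun _ => all.filter fun e' => !decide (e' = q.2))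
            (f := fun p e' => Sum.inl (cget (c p) q.1, e')) (PTF.const _) ?_
          refine PTF.inl (PTF.pair ?_ PTF.id.snd)
          have hc' : PTF (fun p : (α × Con κ ι) × D => c p.1) := hc.comp PTF.id.fst
          obtain ⟨m, e⟩ := q
          fin_cases m
          · exact hc'.snd.fst
          · exact hc'.snd.snd.fst
          · exact hc'.snd.snd.snd.fst
          · exact hc'.snd.snd.snd.snd.fst
          · exact hc'.snd.snd.snd.snd.snd
        · refine PTF.map (l := fun p => (allow (c p).1).filter fun d => decide (dget d q.1 = q.2))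
            (f := fun p d => Sum.inr (c p, d)) ?_ ?_
          · exact (PTF.ofFinite (fun k : κ => (allow k).filter
              fun d => decide (dget d q.1 = q.2))).comp hc.fst
          · exact PTF.inr (PTF.pair (hc.comp PTF.id.fst) PTF.id.snd)
    exact hfin (fun p => p.2) PTF.id.snd me

end ptime

end Pool.Agent.Helper97.NLT
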