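import Mathlib

/-!
# The tournament neighbourhood list problem: definitions
-/

open Turing Computability

namespace Pool.Agent.Helper97.NLT

/-- A tournament with vertex set `V`, given by its arcs: there are no loops, and of two distinct
vertices exactly one has an arc to the other. -/
structure IsTournament {V : Type*} (T : V → V → Prop) : Prop where
  irrefl : ∀ v, ¬ T v v
  oriented : ∀ u v, u ≠ v → Xor' (T u v) (T v u)

/-- The list `N` of subsets of `Fin n` is realised by a tournament with vertex set `Fin n`: up to
reordering it is the list of the out-neighbourhoods. -/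
def IsRealised {n : ℕ} (N : Fin n → Set (Fin n)) : Prop :=
  ∃ (T : Fin n → Fin n → Prop) (σ : Equiv.Perm (Fin n)), IsTournament T ∧
    ∀ v, {w | T v w} = N (σ v)

/-- The string `x` is the 0-1 matrix of the list `N` of subsets of `Fin n`, row by row. -/
def IsMatrixOf {n : ℕ} (N : Fin n → Set (Fin n)) (x : List Bool) : Prop :=
  x.length = n * n ∧ ∀ i j : Fin n, x[i.1 * n + j.1]? = some true ↔ j ∈ N i

/-- The language NLT: the matrices of the lists of sets that are realised by a tournament. -/
def NLT : Set (List Bool) :=
  {x | ∃ (n : ℕ) (N : Fin n → Set (Fin n)), IsMatrixOf N x ∧ IsRealised N}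

/-- The function `f` on strings is computable in polynomial time by a Turing machine. -/
def PolyTimeFun (f : List Bool → List Bool) : Prop :=
  Nonempty (TM2ComputableInPolyTime (id : List Bool → List Bool) (id : List Bool → List Bool) f)

/-- The Boolean function `R` of two strings is computable in polynomial time by a Turing machine. -/
def PolyTimeRel (R : List Bool × List Bool → Bool) : Prop :=
  Nonempty (TM2ComputableInPolyTime
    (encodingProd (encodingList Bool) (encodingList Bool)).encode encodeBool R)

/-- The class NP: `x ∈ L` if and only if there is a certificate `y` of length polynomial in the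
length of `x` that is accepted by a fixed polynomial-time verifier. -/
def InNP (L : Set (List Bool)) : Prop :=
  ∃ (p : Polynomial ℕ) (R : List Bool × List Bool → Bool), PolyTimeRel R ∧
    ∀ x, x ∈ L ↔ ∃ y : List Bool, y.length ≤ p.eval x.length ∧ R (x, y) = true

/-- Polynomial-time many-one reducibility. -/
def Reduces (A B : Set (List Bool)) : Prop :=
  ∃ f : List Bool → List Bool, PolyTimeFun f ∧ ∀ x, x ∈ A ↔ f x ∈ B

/-- Completeness for NP under polynomial-time many-one reductions. -/
def IsNPComplete (A : Set (List Bool)) : Prop := InNP A ∧ ∀ L, InNP L → Reduces L A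

end Pool.Agent.Helper97.NLT
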