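import Mathlib

/-!
# Forcing the blocks by scores

A matrix is enlarged by regular tournaments of large size between the blocks, so that in every
realisation by a tournament the rows of a block are assigned to the vertices of the same block.
-/

namespace Pool.Agent.Helper97.NLT

open Finset

/-- The permutation `g` turns the matrix `Γ` (row `g v` for the vertex `v`) into a tournament. -/
def RealBy {X : Type*} (Γ : X → X → Bool) (g : Equiv.Perm X) : Prop :=
  (∀ v, Γ (g v) v = false) ∧ ∀ v w, v ≠ w → Γ (g v) w = !Γ (g w) v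

/-- The rotational tournament. -/
def rot (K t t' : ℕ) : Bool := (decide (t < t') && decide (t' ≤ t + K)) || decide (t' + K < t)

lemma rot_irrefl (K t : ℕ) : rot K t t = false := by
  simp only [rot, lt_irrefl, decide_false, Bool.false_and, Bool.false_or, decide_eq_false_iff_not]
  omega

lemma rot_antisymm {K t t' : ℕ} (ht : t < 2 * K + 1) (ht' : t' < 2 * K + 1) (h : t ≠ t') :
    rot K t t' = !rot K t' t := by
  rw [Bool.eq_iff_iff]
  simp only [rot, Bool.or_eq_true, Bool.and_eq_true, decide_eq_true_eq, Bool.not_eq_true',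
    Bool.or_eq_false_iff, Bool.and_eq_false_imp, decide_eq_false_iff_not]
  omega

lemma rot_sum {K t : ℕ} (ht : t < 2 * K + 1) :
    ∑ t' : Fin (2 * K + 1), (rot K t t').toNat = K := by
  rw [Fin.sum_univ_eq_sum_range (fun t' => (rot K t t').toNat) (2 * K + 1)]
  have h : ∀ t' ∈ range (2 * K + 1), (rot K t t').toNat =
      if t' ∈ Ioc t (t + K) ∪ range (t - K) then 1 else 0 := by
    intro t' _
    by_cases hr : rot K t t' = true
    · rw [hr, if_pos]
      · rfl
      · simp only [rot, Bool.or_eq_true, Bool.and_eq_true, decide_eq_true_eq] at hr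
        simp only [mem_union, mem_Ioc, mem_range]
        omega
    · rw [Bool.not_eq_true] at hr
      rw [hr, if_neg]
      · rfl
      · simp only [rot, Bool.or_eq_false_iff, Bool.and_eq_false_imp, decide_eq_true_eq,
          decide_eq_false_iff_not] at hr
        simp only [mem_union, mem_Ioc, mem_range]
        omega
  rw [sum_congr rfl h, sum_ite_mem, sum_const, smul_eq_mul, mul_one]
  have h2 : range (2 * K + 1) ∩ (Ioc t (t + K) ∪ range (t - K)) =
      Ioc t (min (t + K) (2 * K)) ∪ range (t - K) := by
    ext x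
    simp only [mem_inter, mem_range, mem_union, mem_Ioc]
    omega
  rw [h2, card_union_of_disjoint, Nat.card_Ioc, card_range]
  · omega
  · rw [disjoint_left]
    intro x
    simp only [mem_Ioc, mem_range]
    omega

section

variable {W : Type*} (N : W → W → Bool) (key : W → ℕ) (B K : ℕ)

/-- The enlarged matrix. -/
def big : W ⊕ (Fin B × Fin (2 * K + 1)) → W ⊕ (Fin B × Fin (2 * K + 1)) → Bool
  | .inl v, .inl w => N v w
  | .inl v, .inr f => decide (key v ≤ f.1.1)
  | .inr f, .inl w => decide (f.1.1 < key w)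
  | .inr f, .inr f' => if f.1.1 = f'.1.1 then rot K f.2 f'.2 else decide (f.1.1 < f'.1.1)

variable {N key B K}

lemma big_of_real (g : Equiv.Perm W) (hg : RealBy N g) (hkey : ∀ v, key (g v) = key v) :
    RealBy (big N key B K) (Equiv.sumCongr g (Equiv.refl _)) := by
  constructor
  · rintro (v | f)
    · exact hg.1 v
    · simp [big, rot_irrefl]
  · rintro (v | f) (w | f') h
    · exact hg.2 v w (fun h' => h (by rw [h']))
    · simp only [Equiv.sumCongr_apply, Sum.map_inl, big, Sum.map_inr, Equiv.refl_apply, hkey]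
      rw [Bool.eq_iff_iff]
      simp
    · simp only [Equiv.sumCongr_apply, Sum.map_inl, big, Sum.map_inr, Equiv.refl_apply, hkey]
      rw [Bool.eq_iff_iff]
      simp
    · obtain ⟨i, t⟩ := f
      obtain ⟨i', t'⟩ := f'
      simp only [Equiv.sumCongr_apply, big, Sum.map_inr, Equiv.refl_apply]
      by_cases hi : i = i'
      · subst hi
        rw [if_pos rfl, if_pos rfl]
        exact rot_antisymm t.2 t'.2 (fun h' => h (by rw [Fin.ext h']))
      · have : i.1 ≠ i'.1 := fun h' => hi (Fin.ext h')
        rw [if_neg this, if_neg this.symm, Bool.eq_iff_iff]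
        simp only [decide_eq_true_eq, Bool.not_eq_true', decide_eq_false_iff_not, not_lt]
        omega

variable [Fintype W]

lemma sum_real {X : Type*} [Fintype X] [DecidableEq X] {Γ : X → X → Bool} {g : Equiv.Perm X}
    (hg : RealBy Γ g) (v : X) :
    ∑ w, (Γ (g v) w).toNat + ∑ w, (Γ w v).toNat + 1 = Fintype.card X := by
  have h1 : ∑ w, (Γ w v).toNat = ∑ w, (Γ (g w) v).toNat :=
    (Equiv.sum_comp g (fun w => (Γ w v).toNat)).symm
  rw [h1, ← sum_add_distrib]
  have h2 : ∀ w, (Γ (g v) w).toNat + (Γ (g w) v).toNat = if w = v then 0 else 1 := by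
    intro w
    by_cases h : w = v
    · subst h; rw [if_pos rfl, hg.1]; rfl
    · rw [if_neg h, hg.2 v w (Ne.symm h)]
      cases Γ (g w) v <;> rfl
  rw [sum_congr rfl fun w _ => h2 w]
  have h3 : ∑ w : X, (if w = v then 0 else 1) + ∑ w : X, (if w = v then 1 else 0) =
      Fintype.card X := by
    rw [← sum_add_distrib, Fintype.card_eq_sum_ones]
    refine sum_congr rfl fun w _ => ?_
    split_ifs <;> rfl
  rw [sum_ite_eq' univ v (fun _ => 1), if_pos (mem_univ _)] at h3
  exact h3

lemma sum_le_card (f : W → Bool) : ∑ w, (f w).toNat ≤ Fintype.card W := by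
  rw [Fintype.card_eq_sum_ones]
  exact sum_le_sum fun w _ => Bool.toNat_le _

lemma count_ge (k : ℕ) (hk : k ≤ B) :
    ∑ i : Fin B, (decide (k ≤ i.1)).toNat = B - k := by
  rw [Fin.sum_univ_eq_sum_range (fun i => (decide (k ≤ i)).toNat) B]
  have : ∀ i ∈ range B, (decide (k ≤ i)).toNat = if i ∈ Ico k B then 1 else 0 := by
    intro i hi
    rw [mem_range] at hi
    by_cases h : k ≤ i
    · rw [if_pos (by rw [mem_Ico]; omega)]; simp [h]
    · rw [if_neg (by rw [mem_Ico]; omega)]; simp [h]
  rw [sum_congr rfl this, sum_ite_mem, sum_const, smul_eq_mul, mul_one]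
  have h2 : range B ∩ Ico k B = Ico k B := by
    ext x; simp only [mem_inter, mem_range, mem_Ico]; omega
  rw [h2, Nat.card_Ico]

lemma count_lt (k : ℕ) (hk : k ≤ B) :
    ∑ i : Fin B, (decide (i.1 < k)).toNat = k := by
  rw [Fin.sum_univ_eq_sum_range (fun i => (decide (i < k)).toNat) B]
  have : ∀ i ∈ range B, (decide (i < k)).toNat = if i ∈ range k then 1 else 0 := by
    intro i hi
    by_cases h : i < k
    · rw [if_pos (by rw [mem_range]; omega)]; simp [h]
    · rw [if_neg (by rw [mem_range]; omega)]; simp [h]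
  rw [sum_congr rfl this, sum_ite_mem, sum_const, smul_eq_mul, mul_one]
  have h2 : range B ∩ range k = range k := by
    ext x; simp only [mem_inter, mem_range]; omega
  rw [h2, card_range]

lemma count_gt (k : ℕ) (hk : k < B) :
    ∑ i : Fin B, (decide (k < i.1)).toNat = B - 1 - k := by
  have := count_ge (B := B) (k + 1) hk
  simp only [Nat.succ_le_iff] at this
  rw [this]; omega

lemma row_inl (v : W) (hB : key v ≤ B) :
    ∑ y, (big N key B K (.inl v) y).toNat =
      ∑ w, (N v w).toNat + (B - key v) * (2 * K + 1) := by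
  rw [Fintype.sum_sum_type, Fintype.sum_prod_type]
  have h1 : ∀ (x : Fin B) (y : Fin (2 * K + 1)), (big N key B K (.inl v) (.inr (x, y))).toNat =
    (decide (key v ≤ x.1)).toNat := fun _ _ => rfl
  have h2 : ∀ w, (big N key B K (.inl v) (.inl w)).toNat = (N v w).toNat := fun _ => rfl
  simp only [h1, h2, Finset.sum_const, Finset.card_univ, Fintype.card_fin, smul_eq_mul]
  rw [← mul_sum, count_ge _ hB, mul_comm]

lemma col_inl (v : W) (hB : key v ≤ B) :
    ∑ y, (big N key B K y (.inl v)).toNat =
      ∑ w, (N w v).toNat + key v * (2 * K + 1) := by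
  rw [Fintype.sum_sum_type, Fintype.sum_prod_type]
  have h1 : ∀ (x : Fin B) (y : Fin (2 * K + 1)), (big N key B K (.inr (x, y)) (.inl v)).toNat =
    (decide (x.1 < key v)).toNat := fun _ _ => rfl
  have h2 : ∀ w, (big N key B K (.inl w) (.inl v)).toNat = (N w v).toNat := fun _ => rfl
  simp only [h1, h2, Finset.sum_const, Finset.card_univ, Fintype.card_fin, smul_eq_mul]
  rw [← mul_sum, count_lt _ hB, mul_comm]

lemma row_inr (i : Fin B) (t : Fin (2 * K + 1)) :
    ∑ y, (big N key B K (.inr (i, t)) y).toNat =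
      ∑ w, (decide (i.1 < key w)).toNat + (K + (B - 1 - i.1) * (2 * K + 1)) := by
  rw [Fintype.sum_sum_type, Fintype.sum_prod_type]
  simp only [big]
  congr 1
  have h : ∀ i' : Fin B, ∑ t' : Fin (2 * K + 1),
      (if i.1 = i'.1 then rot K t t' else decide (i.1 < i'.1)).toNat =
      (if i = i' then K else 0) + (decide (i.1 < i'.1)).toNat * (2 * K + 1) := by
    intro i'
    by_cases hi : i = i'
    · subst hi
      simp only [if_true, lt_irrefl, decide_false, Bool.toNat_false, zero_mul, add_zero]
      exact rot_sum t.2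
    · have : i.1 ≠ i'.1 := fun h' => hi (Fin.ext h')
      simp only [if_neg this, if_neg hi, sum_const, card_univ, Fintype.card_fin, smul_eq_mul,
        zero_add]
      rw [mul_comm]
  rw [sum_congr rfl fun i' _ => h i', sum_add_distrib, sum_ite_eq univ i (fun _ => K),
    if_pos (mem_univ _), ← sum_mul, count_gt _ i.2]

lemma arith1 {R C b d k M V : ℕ}
    (h : R + (b + 1) * M + (C + (k + d + 1) * M) + 1 = V + (k + b + 1) * M) (hV : V < M) :
    False := by
  have h1 : (b + 1) * M + (k + d + 1) * M = (k + b + 1) * M + (d + 1) * M := by ring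
  have h2 : M ≤ (d + 1) * M := Nat.le_mul_of_pos_left _ (Nat.succ_pos d)
  omega

lemma arith2 {R C b d k M V : ℕ} (hR : R ≤ V) (hC : C ≤ V)
    (h : R + (b + 1) * M + (C + k * M) + 1 = V + (k + d + 1 + b + 1) * M) (hV : V + 1 < M) :
    False := by
  have h1 : (k + d + 1 + b + 1) * M = (b + 1) * M + k * M + (d + 1) * M := by ring
  have h2 : M ≤ (d + 1) * M := Nat.le_mul_of_pos_left _ (Nat.succ_pos d)
  omega

lemma arith3 {R C b d i K V : ℕ}
    (h : R + (K + b * (2 * K + 1)) + (C + (i + d + 1) * (2 * K + 1)) + 1 =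
      V + (i + b + 1) * (2 * K + 1)) (hV : V < K) : False := by
  have h1 : b * (2 * K + 1) + (i + d + 1) * (2 * K + 1) =
    (i + b + 1) * (2 * K + 1) + d * (2 * K + 1) := by ring
  have h2 := Nat.zero_le (d * (2 * K + 1))
  omega

lemma arith4 {R C b d k K V : ℕ} (hR : R ≤ V) (hC : C ≤ V)
    (h : R + (K + b * (2 * K + 1)) + (C + k * (2 * K + 1)) + 1 =
      V + (k + d + b + 1) * (2 * K + 1)) (hV : V < K) : False := by
  have h1 : (k + d + b + 1) * (2 * K + 1) =
    b * (2 * K + 1) + k * (2 * K + 1) + d * (2 * K + 1) + (2 * K + 1) := by ring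
  have h2 := Nat.zero_le (d * (2 * K + 1))
  omega

/-- In a realisation of the enlarged matrix, the blocks are respected. -/
lemma real_of_big [DecidableEq W] (hB : ∀ v, key v < B) (hK : Fintype.card W < K)
    {G : Equiv.Perm (W ⊕ (Fin B × Fin (2 * K + 1)))} (hG : RealBy (big N key B K) G) :
    ∃ g : Equiv.Perm W, RealBy N g ∧ ∀ v, key (g v) = key v := by
  have hcard : Fintype.card (W ⊕ (Fin B × Fin (2 * K + 1))) =
      Fintype.card W + B * (2 * K + 1) := by
    simp
  have h1 : ∀ v : W, ∃ r : W, G (.inl v) = .inl r ∧ key r = key v := by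
    intro v
    have hs := sum_real hG (.inl v)
    rw [hcard, col_inl v (hB v).le] at hs
    have hc := sum_le_card (fun w => N w v)
    rcases hr : G (.inl v) with r | ⟨i, t⟩
    · refine ⟨r, rfl, ?_⟩
      rw [hr, row_inl r (hB r).le] at hs
      have hc2 := sum_le_card (fun w => N r w)
      have hBr := hB r
      have hBv := hB v
      rcases lt_trichotomy (key r) (key v) with h | h | h
      · exfalso
        obtain ⟨b, hb⟩ := Nat.exists_eq_add_of_lt hBr
        have hb' : B - key r = b + 1 := by omega
        rw [hb', hb] at hs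
        obtain ⟨d, hd⟩ := Nat.exists_eq_add_of_lt h
        rw [hd] at hs
        exact arith1 hs (by omega)
      · exact h
      · exfalso
        obtain ⟨b, hb⟩ := Nat.exists_eq_add_of_lt hBr
        have hb' : B - key r = b + 1 := by omega
        rw [hb', hb] at hs
        obtain ⟨d, hd⟩ := Nat.exists_eq_add_of_lt h
        rw [hd] at hs
        exact arith2 hc2 hc hs (by omega)
    · exfalso
      rw [hr, row_inr i t] at hs
      have hc2 := sum_le_card (fun w => decide (i.1 < key w))
      have hBi := i.2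
      have hBv := hB v
      obtain ⟨b, hb⟩ := Nat.exists_eq_add_of_lt hBi
      have hb' : B - 1 - i.1 = b := by omega
      rw [hb'] at hs
      generalize i.1 = i at *
      rw [hb] at hs
      rcases lt_or_ge i (key v) with h | h
      · obtain ⟨d, hd⟩ := Nat.exists_eq_add_of_lt h
        rw [hd] at hs
        exact arith3 hs hK
      · obtain ⟨d, hd⟩ := Nat.exists_eq_add_of_le h
        rw [hd] at hs hc2
        exact arith4 hc2 hc hs hK
  choose f hf hfkey using h1
  have hinj : Function.Injective f := by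
    intro v w h
    have := hf v
    rw [h, ← hf w] at this
    exact Sum.inl_injective (G.injective this)
  have hbij : Function.Bijective f := Finite.injective_iff_bijective.1 hinj
  refine ⟨Equiv.ofBijective f hbij, ⟨fun v => ?_, fun v w hvw => ?_⟩, fun v => ?_⟩
  · have := hG.1 (.inl v)
    rw [hf v] at this
    exact this
  · have := hG.2 (.inl v) (.inl w) (fun h => hvw (Sum.inl_injective h))
    rw [hf v, hf w] at this
    exact this
  · exact hfkey v

theorem big_iff [DecidableEq W] (hB : ∀ v, key v < B) (hK : Fintype.card W < K) :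
    (∃ G, RealBy (big N key B K) G) ↔
      ∃ g : Equiv.Perm W, RealBy N g ∧ ∀ v, key (g v) = key v :=
  ⟨fun ⟨_, hG⟩ => real_of_big hB hK hG, fun ⟨g, hg, hk⟩ => ⟨_, big_of_real g hg hk⟩⟩

end

end Pool.Agent.Helper97.NLT
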