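import Mathlib

/-!
# The finite gadget: tables and finite checks

The core is the Paley tournament on seven vertices with three of its realisations, the links are
tournaments on `Z_3 × Z_7`.
-/

namespace Pool.Agent.Helper97.NLT

/-- The Paley tournament. -/
def pal (k k' : Fin 7) : Bool := Nat.testBit 50775744452118 (7 * k.1 + k'.1)

/-- The matrices of the link tournaments. -/
def linkTab (l : Fin 3) : ℕ :=
  match l with
  | 0 => 989129972332641070337500308260488068887746893407751604763135091768221257197564622927678169990425184079765141238828290846295808808650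
  | 1 => 528336118444999249649506334432053574180485301331537991093395917528948285565912200871995073522692068894322897721069342908993085433400
  | 2 => 2209200641938697455156039064183976549524376647651484654828404877556260266674428917554312210364082518985023888070136101049117177443350

/-- The link tournaments. -/
def lnk (l : Fin 3) (s : Fin 3) (k : Fin 7) (s' : Fin 3) (k' : Fin 7) : Bool :=
  Nat.testBit (linkTab l) (21 * (7 * s.1 + k.1) + (7 * s'.1 + k'.1))

/-- The realisations of the Paley tournament. -/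
def pg (m : Fin 8) : Fin 7 → Fin 7 :=
  match m with
  | 0 => ![0, 1, 2, 3, 4, 5, 6]
  | 1 => ![0, 2, 4, 5, 1, 6, 3]
  | 2 => ![1, 3, 4, 0, 5, 2, 6]
  | 3 => ![1, 5, 2, 4, 6, 0, 3]
  | 4 => ![2, 3, 6, 4, 1, 5, 0]
  | 5 => ![2, 5, 3, 0, 4, 6, 1]
  | 6 => ![4, 1, 3, 5, 6, 2, 0]
  | 7 => ![4, 2, 6, 3, 5, 0, 1]

/-- Their inverses. -/
def pgi (m : Fin 8) : Fin 7 → Fin 7 :=
  match m with
  | 0 => ![0, 1, 2, 3, 4, 5, 6]
  | 1 => ![0, 4, 1, 6, 2, 3, 5]
  | 2 => ![3, 0, 5, 1, 2, 4, 6]
  | 3 => ![5, 0, 2, 6, 3, 1, 4]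
  | 4 => ![6, 4, 0, 1, 3, 5, 2]
  | 5 => ![3, 6, 0, 2, 4, 1, 5]
  | 6 => ![6, 1, 5, 2, 0, 3, 4]
  | 7 => ![5, 6, 1, 3, 0, 4, 2]

lemma pg_pgi (m : Fin 8) (k : Fin 7) : pg m (pgi m k) = k := by
  revert m k; decide +kernel

lemma pgi_pg (m : Fin 8) (k : Fin 7) : pgi m (pg m k) = k := by
  revert m k; decide +kernel

/-- The truth value of the literal at position `l` in state `t`. -/
def sv (l t : Fin 3) : Fin 3 := if l = t then 1 else 0

/-- The embedding of the states. -/
def st (t : Fin 3) : Fin 8 := ⟨t.1, by omega⟩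

/-- The realisation of the link that is forced by the core and the variable. -/
def lg (l : Fin 3) (m : Fin 8) (x : Fin 3) (s : Fin 3) (k : Fin 7) : Fin 3 × Fin 7 :=
  (s + sv l 0 - x, pgi m k)

/-- Two values of a realisation are compatible. -/
def cpt (i j a b : Fin 7) : Bool := pal a j == !pal b i

lemma core_class_bool : ((List.finRange 7).all fun a0 => pal a0 0 ||
    (List.finRange 7).all fun a1 => pal a1 1 || !cpt 0 1 a0 a1 ||
    (List.finRange 7).all fun a2 => pal a2 2 || !cpt 0 2 a0 a2 || !cpt 1 2 a1 a2 ||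
    (List.finRange 7).all fun a3 => pal a3 3 || !cpt 0 3 a0 a3 || !cpt 1 3 a1 a3 ||
      !cpt 2 3 a2 a3 ||
    (List.finRange 7).all fun a4 => pal a4 4 || !cpt 0 4 a0 a4 || !cpt 1 4 a1 a4 ||
      !cpt 2 4 a2 a4 || !cpt 3 4 a3 a4 ||
    (List.finRange 7).all fun a5 => pal a5 5 || !cpt 0 5 a0 a5 || !cpt 1 5 a1 a5 ||
      !cpt 2 5 a2 a5 || !cpt 3 5 a3 a5 || !cpt 4 5 a4 a5 ||
    (List.finRange 7).all fun a6 => pal a6 6 || !cpt 0 6 a0 a6 || !cpt 1 6 a1 a6 ||
      !cpt 2 6 a2 a6 || !cpt 3 6 a3 a6 || !cpt 4 6 a4 a6 || !cpt 5 6 a5 a6 ||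
    (List.finRange 8).any fun m => decide (pg m 0 = a0) && decide (pg m 1 = a1) &&
      decide (pg m 2 = a2) && decide (pg m 3 = a3) && decide (pg m 4 = a4) &&
      decide (pg m 5 = a5) && decide (pg m 6 = a6)) = true := by
  decide +kernel

lemma core_class (f : Fin 7 → Fin 7) (h1 : ∀ k, pal (f k) k = false)
    (h2 : ∀ k k', k ≠ k' → pal (f k) k' = !pal (f k') k) : ∃ m : Fin 8, f = pg m := by
  have h := core_class_bool
  have hc : ∀ i j : Fin 7, i ≠ j → cpt i j (f i) (f j) = true := by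
    intro i j hij
    unfold cpt
    rw [h2 i j hij]; simp
  have key := fun (i : Fin 7) => h1 i
  simp only [List.all_eq_true, Bool.or_eq_true, List.mem_finRange, forall_true_left] at h
  have h0 := h (f 0)
  simp only [h1, Bool.false_eq_true, false_or] at h0
  have h3 := h0 (f 1)
  simp only [h1, hc 0 1 (by decide), Bool.not_true, Bool.false_eq_true, false_or] at h3
  have h4 := h3 (f 2)
  simp only [h1, hc 0 2 (by decide), hc 1 2 (by decide), Bool.not_true, Bool.false_eq_true,
    false_or] at h4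
  have h5 := h4 (f 3)
  simp only [h1, hc 0 3 (by decide), hc 1 3 (by decide), hc 2 3 (by decide), Bool.not_true,
    Bool.false_eq_true, false_or] at h5
  have h6 := h5 (f 4)
  simp only [h1, hc 0 4 (by decide), hc 1 4 (by decide), hc 2 4 (by decide), hc 3 4 (by decide),
    Bool.not_true, Bool.false_eq_true, false_or] at h6
  have h7 := h6 (f 5)
  simp only [h1, hc 0 5 (by decide), hc 1 5 (by decide), hc 2 5 (by decide), hc 3 5 (by decide),
    hc 4 5 (by decide), Bool.not_true, Bool.false_eq_true, false_or] at h7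
  have h8 := h7 (f 6)
  simp only [h1, hc 0 6 (by decide), hc 1 6 (by decide), hc 2 6 (by decide), hc 3 6 (by decide),
    hc 4 6 (by decide), hc 5 6 (by decide), Bool.not_true, Bool.false_eq_true, false_or,
    List.any_eq_true, Bool.and_eq_true, decide_eq_true_eq] at h8
  obtain ⟨m, -, ⟨⟨⟨⟨⟨⟨m0, m1⟩, m2⟩, m3⟩, m4⟩, m5⟩, m6⟩⟩ := h8
  refine ⟨m, ?_⟩
  funext k
  fin_cases k <;> simp_all

lemma link_sound : ∀ (l : Fin 3) (m : Fin 8) (x : Fin 3), x ≠ 2 →
    (∀ s k s' k', (s, k) ≠ (s', k') → lnk l (lg l m x s k).1 (lg l m x s k).2 s' k' =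
      !lnk l (lg l m x s' k').1 (lg l m x s' k').2 s k) →
    ∃ t : Fin 3, m = st t ∧ x = sv l t := by
  decide +kernel

lemma link_complete : ∀ (l t s : Fin 3) (k : Fin 7) (s' : Fin 3) (k' : Fin 7),
    (s, k) ≠ (s', k') → lnk l (lg l (st t) (sv l t) s k).1 (lg l (st t) (sv l t) s k).2 s' k' =
      !lnk l (lg l (st t) (sv l t) s' k').1 (lg l (st t) (sv l t) s' k').2 s k := by
  decide +kernel

lemma link_irrefl : ∀ (l t s : Fin 3) (k : Fin 7),
    lnk l (lg l (st t) (sv l t) s k).1 (lg l (st t) (sv l t) s k).2 s k = false := by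
  decide +kernel

lemma core_complete : ∀ (m : Fin 8) (k k' : Fin 7), k ≠ k' → pal (pg m k) k' = !pal (pg m k') k := by
  decide +kernel

lemma core_irrefl : ∀ (m : Fin 8) (k : Fin 7), pal (pg m k) k = false := by
  decide +kernel

end Pool.Agent.Helper97.NLT
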