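import Mathlib
import Pool.Agent.Helper97.NLT.Tables
import Pool.Agent.Helper97.NLT.Filler

/-!
# The gadget: positive 1-in-3 satisfiability as a realisation problem with blocks
-/

namespace Pool.Agent.Helper97.NLT

/-- The vertices of one clause: three variable blocks, the core, and three links. -/
inductive A
  | V (l u : Fin 3)
  | C (k : Fin 7)
  | O (l s : Fin 3) (k : Fin 7)
  deriving DecidableEq, Fintype

/-- The block of a vertex. -/
def blk : A → ℕ
  | .V l _ => l.1
  | .C _ => 3
  | .O l _ _ => 4 + l.1

/-- The matrix inside a clause. -/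
def loc : A → A → Bool
  | .V l u, .V l' u' => if l = l' then decide (u' = u + 1) else decide (l < l')
  | .V _ _, .C _ => true
  | .V l u, .O l' s _ => if l = l' then decide (s + sv l 0 ≠ u) else true
  | .C _, .V _ _ => false
  | .C k, .C k' => pal k k'
  | .C k, .O _ _ k' => decide (k' ≠ k)
  | .O l s _, .V l' u => if l = l' then decide (s = u) else false
  | .O _ _ k, .C k' => decide (k = k')
  | .O l s k, .O l' s' k' => if l = l' then lnk l s k s' k' else decide (l < l')

/-- The vertices in variable blocks. -/
def isV : A → Bool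
  | .V _ _ => true
  | _ => false

/-- The matrix between variable blocks. -/
def tie (e : Bool) (p p' : ℕ) (u u' : Fin 3) : Bool :=
  if p = p' then decide (u' = u + 1)
  else if e = true then (if p < p' then decide (u + u' ≠ 0) else decide (u + u' = 0))
  else decide (p < p')

/-- The matrix of an instance. -/
def ent {ν : Type*} [DecidableEq ν] (nm : ℕ → Fin 3 → ν) (x y : ℕ × A) : Bool :=
  match x.2, y.2 with
  | .V l u, .V l' u' => tie (decide (nm x.1 l = nm y.1 l')) (3 * x.1 + l.1) (3 * y.1 + l'.1) u u'
  | a, a' => if x.1 = y.1 then loc a a' else decide (x.1 < y.1)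

/-- The realisation of a clause in state `t`. -/
def gl (t : Fin 3) : A → A
  | .V l u => .V l (u + sv l t)
  | .C k => .C (pg (st t) k)
  | .O l s k => .O l (lg l (st t) (sv l t) s k).1 (lg l (st t) (sv l t) s k).2

lemma gl_injective (t : Fin 3) : Function.Injective (gl t) := by
  have h : ∀ t : Fin 3, ∀ a b : A, gl t a = gl t b → a = b := by decide +kernel
  exact fun a b hab => h t a b hab

lemma blk_gl (t : Fin 3) (a : A) : blk (gl t a) = blk a := by
  cases a <;> rfl

lemma blk_lt (a : A) : blk a < 7 := by
  cases a with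
  | V l u => simp only [blk]; omega
  | C k => simp only [blk]; omega
  | O l s k => simp only [blk]; omega

lemma loc_irrefl : ∀ (t : Fin 3) (a : A), loc (gl t a) a = false := by decide +kernel

lemma loc_anti : ∀ (t : Fin 3) (a b : A), a ≠ b → (isV a && isV b) = false →
    loc (gl t a) b = !loc (gl t b) a := by decide +kernel

lemma tie_anti {e : Bool} {p p' : ℕ} (hp : p ≠ p') (u u' x x' : Fin 3) (h : e = true → x = x') :
    tie e p p' (u + x) u' = !tie e p' p (u' + x') u := by
  unfold tie
  rw [if_neg hp, if_neg hp.symm]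
  cases e with
  | false =>
    simp only [Bool.false_eq_true, if_false]
    rw [Bool.eq_iff_iff]
    simp only [decide_eq_true_eq, Bool.not_eq_true', decide_eq_false_iff_not, not_lt]
    omega
  | true =>
    obtain rfl := h rfl
    simp only [if_true]
    rcases Nat.lt_or_gt_of_ne hp with h1 | h1
    · rw [if_pos h1, if_neg (by omega)]
      revert u u' x; decide
    · rw [if_neg (by omega), if_pos h1]
      revert u u' x; decide

lemma sv_eq_iff : ∀ l t : Fin 3, sv l t = 1 ↔ l = t := by decide
lemma sv_eq_of : ∀ l t l' t' : Fin 3, (decide (l = t) = decide (l' = t')) → sv l t = sv l' t' := by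
  decide

lemma pos_inj {c c' : ℕ} {l l' : Fin 3} (h : 3 * c + l.1 = 3 * c' + l'.1) : c = c' ∧ l = l' := by
  have h1 := l.2
  have h2 := l'.2
  have h3 : c = c' := by omega
  exact ⟨h3, Fin.ext (by omega)⟩

section

variable {ν : Type*} [DecidableEq ν] (nm : ℕ → Fin 3 → ν) (q : ℕ)

/-- The matrix on the finite type of vertices. -/
def entF (x y : Fin q × A) : Bool := ent nm (x.1.1, x.2) (y.1.1, y.2)

/-- The blocks. -/
def keyF (x : Fin q × A) : ℕ := 7 * x.1.1 + blk x.2

variable {nm q}

lemma complete {τ : ν → Bool} {t : Fin q → Fin 3}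
    (h : ∀ (c : Fin q) (l : Fin 3), τ (nm c.1 l) = decide (l = t c)) :
    ∃ g : Equiv.Perm (Fin q × A), RealBy (entF nm q) g ∧ ∀ v, keyF q (g v) = keyF q v := by
  let f : Fin q × A → Fin q × A := fun x => (x.1, gl (t x.1) x.2)
  have hf : Function.Bijective f := by
    refine Finite.injective_iff_bijective.1 ?_
    rintro ⟨c, a⟩ ⟨c', a'⟩ h
    simp only [f, Prod.mk.injEq] at h
    obtain ⟨rfl, h⟩ := h
    rw [gl_injective _ h]
  refine ⟨Equiv.ofBijective f hf, ⟨?_, ?_⟩, ?_⟩
  · rintro ⟨c, a⟩
    simp only [Equiv.ofBijective_apply, f, entF]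
    have h1 := loc_irrefl (t c) a
    cases a with
    | V l u =>
      simp only [ent, gl, tie, if_true]
      simp only [loc, gl, if_true] at h1
      exact h1
    | C k => simp only [ent, gl, if_true]; exact h1
    | O l s k => simp only [ent, gl, if_true]; exact h1
  · rintro ⟨c, a⟩ ⟨c', a'⟩ hne
    simp only [Equiv.ofBijective_apply, f, entF]
    by_cases hV : (isV a && isV a') = true
    · cases a with
      | C k => simp [isV] at hV
      | O l s k => simp [isV] at hV
      | V l u =>
        cases a' with
        | C k => simp [isV] at hV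
        | O l s k => simp [isV] at hV
        | V l' u' =>
          simp only [ent, gl]
          by_cases hp : 3 * c.1 + l.1 = 3 * c'.1 + l'.1
          · obtain ⟨hc, rfl⟩ := pos_inj hp
            obtain rfl := Fin.ext hc
            simp only [tie, if_true]
            have hu : u ≠ u' := fun h' => hne (by rw [h'])
            have h2 : ∀ x u u' : Fin 3, x ≠ 2 → u ≠ u' →
                decide (u' = u + x + 1) = !decide (u = u' + x + 1) := by decide
            refine h2 _ _ _ ?_ hu
            have h3 : ∀ l t : Fin 3, sv l t ≠ 2 := by decide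
            exact h3 _ _
          · rw [show decide (nm c'.1 l' = nm c.1 l) = decide (nm c.1 l = nm c'.1 l') from by
              rw [decide_eq_decide]; exact eq_comm]
            refine tie_anti hp _ _ _ _ fun he => ?_
            rw [decide_eq_true_eq] at he
            refine sv_eq_of _ _ _ _ ?_
            rw [← h c l, ← h c' l', he]
    · rw [Bool.not_eq_true] at hV
      by_cases hc : c = c'
      · subst hc
        have ha : a ≠ a' := fun h' => hne (by rw [h'])
        have h1 := loc_anti (t c) a a' ha hV
        cases a <;> cases a' <;> simp only [isV, Bool.and_self, Bool.true_eq_false] at hV <;>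
          simp only [ent, gl, if_true] <;> exact h1
      · have hc' : c.1 ≠ c'.1 := fun h' => hc (Fin.ext h')
        have h2 : decide (c.1 < c'.1) = !decide (c'.1 < c.1) := by
          rw [Bool.eq_iff_iff]
          simp only [decide_eq_true_eq, Bool.not_eq_true', decide_eq_false_iff_not, not_lt]
          omega
        cases a <;> cases a' <;> simp only [isV, Bool.and_self, Bool.true_eq_false] at hV <;>
          simp only [ent, gl, if_neg hc', if_neg hc'.symm] <;> exact h2
  · rintro ⟨c, a⟩
    simp only [Equiv.ofBijective_apply, f, keyF, blk_gl]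

lemma var_class : ∀ f : Fin 3 → Fin 3, (∀ u, u ≠ f u + 1) →
    (∀ u u', u ≠ u' → decide (u' = f u + 1) = !decide (u = f u' + 1)) →
    ∃ x : Fin 3, x ≠ 2 ∧ ∀ u, f u = u + x := by
  decide +kernel

lemma sound {g : Equiv.Perm (Fin q × A)} (hg : RealBy (entF nm q) g)
    (hk : ∀ v, keyF q (g v) = keyF q v) :
    ∃ (τ : ν → Bool) (t : Fin q → Fin 3), ∀ (c : Fin q) (l : Fin 3),
      τ (nm c.1 l) = decide (l = t c) := by
  classical
  -- the local maps
  have h1 : ∀ (c : Fin q) (a : A), ∃ b : A, g (c, a) = (c, b) ∧ blk b = blk a := by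
    intro c a
    have h := hk (c, a)
    simp only [keyF] at h
    have h2 := blk_lt a
    have h3 := blk_lt (g (c, a)).2
    refine ⟨(g (c, a)).2, ?_, by omega⟩
    ext
    · simp only; omega
    · rfl
  choose h hh hb using h1
  have hV : ∀ (c : Fin q) (l u : Fin 3), ∃ u', h c (.V l u) = .V l u' := by
    intro c l u
    have h2 := hb c (.V l u)
    cases h3 : h c (.V l u) with
    | V l' u' =>
      rw [h3] at h2
      simp only [blk] at h2
      exact ⟨u', by rw [Fin.ext h2]⟩
    | C k => rw [h3] at h2; simp only [blk] at h2; omega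
    | O l' s k => rw [h3] at h2; simp only [blk] at h2; omega
  have hC : ∀ (c : Fin q) (k : Fin 7), ∃ k', h c (.C k) = .C k' := by
    intro c k
    have h2 := hb c (.C k)
    cases h3 : h c (.C k) with
    | V l' u' => rw [h3] at h2; simp only [blk] at h2; omega
    | C k' => exact ⟨k', rfl⟩
    | O l' s k => rw [h3] at h2; simp only [blk] at h2; omega
  have hO : ∀ (c : Fin q) (l s : Fin 3) (k : Fin 7), ∃ r : Fin 3 × Fin 7,
      h c (.O l s k) = .O l r.1 r.2 := by
    intro c l s k
    have h2 := hb c (.O l s k)
    cases h3 : h c (.O l s k) with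
    | V l' u' => rw [h3] at h2; simp only [blk] at h2; omega
    | C k' => rw [h3] at h2; simp only [blk] at h2; omega
    | O l' s' k' =>
      rw [h3] at h2
      simp only [blk] at h2
      exact ⟨(s', k'), by rw [Fin.ext (show l'.1 = l.1 by omega)]⟩
  choose fV hfV using hV
  choose fC hfC using hC
  choose fO hfO using hO
  -- the variable blocks
  have hx : ∀ (c : Fin q) (l : Fin 3), ∃ x : Fin 3, x ≠ 2 ∧ ∀ u, fV c l u = u + x := by
    intro c l
    refine var_class _ ?_ ?_
    · intro u hu
      have h2 := hg.1 (c, .V l u)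
      rw [hh, hfV] at h2
      simp only [entF, ent, tie, if_true, decide_eq_false_iff_not] at h2
      exact h2 hu
    · intro u u' hu
      have h2 := hg.2 (c, .V l u) (c, .V l u') (by simpa using hu)
      rw [hh, hfV, hh, hfV] at h2
      simpa only [entF, ent, tie, if_true] using h2
  choose x hx2 hx using hx
  -- the core
  have hm : ∀ c : Fin q, ∃ m : Fin 8, fC c = pg m := by
    intro c
    refine core_class _ ?_ ?_
    · intro k
      have h2 := hg.1 (c, .C k)
      rw [hh, hfC] at h2
      simpa only [entF, ent, loc, if_true] using h2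
    · intro k k' hkk
      have h2 := hg.2 (c, .C k) (c, .C k') (by simpa using hkk)
      rw [hh, hfC, hh, hfC] at h2
      simpa only [entF, ent, loc, if_true] using h2
  choose m hm using hm
  -- the links
  have hlink : ∀ (c : Fin q) (l s : Fin 3) (k : Fin 7), fO c l s k = lg l (m c) (x c l) s k := by
    intro c l s k
    have h2 := hg.2 (c, .O l s k) (c, .C (fO c l s k).2) (by simp)
    rw [hh, hfO, hh, hfC] at h2
    simp only [entF, ent, loc, if_true, decide_true] at h2
    have h3 := h2.symm
    simp only [Bool.not_eq_true', decide_eq_false_iff_not, not_not] at h3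
    have h4 := hg.2 (c, .O l s k) (c, .V l (fO c l s k).1) (by simp)
    rw [hh, hfO, hh, hfV, hx] at h4
    simp only [entF, ent, loc, if_true, decide_true] at h4
    have h5 := h4.symm
    simp only [Bool.not_eq_true', decide_eq_false_iff_not, not_not] at h5
    unfold lg
    refine Prod.ext ?_ ?_
    · simp only
      rw [h5]; simp
    · have h6 := congrArg (pgi (m c)) h3
      rw [hm, pgi_pg] at h6
      exact h6.symm
  have ht : ∀ (c : Fin q) (l : Fin 3), ∃ t : Fin 3, m c = st t ∧ x c l = sv l t := by
    intro c l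
    refine link_sound l (m c) (x c l) (hx2 c l) ?_
    intro s k s' k' hne
    have h2 := hg.2 (c, .O l s k) (c, .O l s' k') (by
      intro h'
      simp only [Prod.mk.injEq, A.O.injEq, true_and] at h'
      exact hne (by rw [h'.1, h'.2]))
    rw [hh, hfO, hh, hfO, hlink, hlink] at h2
    simpa only [entF, ent, loc, if_true] using h2
  have hst : ∀ t t' : Fin 3, st t = st t' → t = t' := by decide
  have ht' : ∀ c : Fin q, ∃ t : Fin 3, ∀ l, x c l = sv l t := by
    intro c
    obtain ⟨t, h2, -⟩ := ht c 0
    refine ⟨t, fun l => ?_⟩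
    obtain ⟨t', h3, h4⟩ := ht c l
    rw [hst t t' (h2.symm.trans h3)]
    exact h4
  choose t ht using ht'
  -- equal names have equal values
  have key : ∀ (c c' : Fin q) (l l' : Fin 3), 3 * c.1 + l.1 < 3 * c'.1 + l'.1 →
      nm c.1 l = nm c'.1 l' → x c l = x c' l' := by
    intro c c' l l' hlt hname
    have hne : (c, A.V l (-(x c l))) ≠ (c', A.V l' 0) := by
      intro h'
      simp only [Prod.mk.injEq, A.V.injEq] at h'
      rw [h'.1, h'.2.1] at hlt
      exact lt_irrefl _ hlt
    have h2 := hg.2 _ _ hne
    rw [hh, hfV, hh, hfV, hx, hx] at h2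
    simp only [entF, ent, tie, if_neg hlt.ne, if_neg hlt.ne', if_pos hlt, if_neg hlt.not_gt,
      hname, decide_true, if_true] at h2
    have h3 : ∀ y y' : Fin 3, (decide (-y + y + 0 ≠ 0) = !decide (0 + y' + -y = 0)) → y = y' := by
      decide
    exact h3 _ _ h2
  have key2 : ∀ (c c' : Fin q) (l l' : Fin 3), nm c.1 l = nm c'.1 l' → x c l = x c' l' := by
    intro c c' l l' hname
    rcases lt_trichotomy (3 * c.1 + l.1) (3 * c'.1 + l'.1) with h2 | h2 | h2
    · exact key _ _ _ _ h2 hname
    · obtain ⟨h3, rfl⟩ := pos_inj h2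
      rw [Fin.ext h3]
    · exact (key _ _ _ _ h2 hname.symm).symm
  refine ⟨fun n => decide (∃ (c : Fin q) (l : Fin 3), nm c.1 l = n ∧ x c l = 1), t, ?_⟩
  intro c l
  rw [decide_eq_decide]
  constructor
  · rintro ⟨c', l', h2, h3⟩
    rw [key2 _ _ _ _ h2, ht] at h3
    exact (sv_eq_iff _ _).1 h3
  · intro h2
    exact ⟨c, l, rfl, by rw [ht]; exact (sv_eq_iff _ _).2 h2⟩

/-- Realisations respecting the blocks correspond to exactly-one assignments. -/
theorem gadget_iff : (∃ g : Equiv.Perm (Fin q × A), RealBy (entF nm q) g ∧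
    ∀ v, keyF q (g v) = keyF q v) ↔
    ∃ (τ : ν → Bool) (t : Fin q → Fin 3), ∀ (c : Fin q) (l : Fin 3),
      τ (nm c.1 l) = decide (l = t c) :=
  ⟨fun ⟨_, hg, hk⟩ => sound hg hk, fun ⟨_, _, h⟩ => complete h⟩

end

end Pool.Agent.Helper97.NLT
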