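import Mathlib
import Pool.Agent.Helper97.NLT.Defs
import Pool.Agent.Helper97.NLT.Gadget
import Pool.Agent.Helper91.PolyTime.TriangleList

/-!
# Matrices as strings
-/

open Function

namespace Pool.Agent.Helper97.NLT

/-- The string of a matrix. -/
def bits {C : Type*} (E : C → C → Bool) (L : List C) : List Bool :=
  L.flatMap fun v => L.map (E v)

lemma length_bits {C : Type*} (E : C → C → Bool) (L : List C) :
    (bits E L).length = L.length * L.length :=
  Helper91.Triangle.length_flatMap_const _ _ _ fun a _ => by simp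

lemma getElem?_bits {C : Type*} (E : C → C → Bool) (L : List C) (i j : Fin L.length) :
    (bits E L)[i.1 * L.length + j.1]? = some (E L[i.1] L[j.1]) := by
  unfold bits
  rw [Helper91.Triangle.getElem?_flatMap_const L.length L (fun v => L.map (E v))
    (fun a _ => by simp) i.1 j.1 i.2 j.2, List.getElem?_map, List.getElem?_eq_getElem j.2,
    Option.map_some]

lemma isRealised_iff {n : ℕ} (N : Fin n → Set (Fin n)) (Γ : Fin n → Fin n → Bool)
    (h : ∀ i j, Γ i j = true ↔ j ∈ N i) : IsRealised N ↔ ∃ g, RealBy Γ g := by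
  constructor
  · rintro ⟨T, σ, hT, hN⟩
    have h1 : ∀ v w, Γ (σ v) w = true ↔ T v w := by
      intro v w
      rw [h, ← hN v]
      rfl
    refine ⟨σ, fun v => ?_, fun v w hvw => ?_⟩
    · rw [Bool.eq_false_iff]
      intro h2
      exact hT.irrefl v ((h1 v v).1 h2)
    · have h2 := hT.oriented v w hvw
      rw [Bool.eq_iff_iff, h1]
      rw [Bool.not_eq_true', Bool.eq_false_iff, Ne, h1]
      rcases h2 with ⟨h3, h4⟩ | ⟨h3, h4⟩
      · exact ⟨fun _ => h4, fun _ => h3⟩
      · exact ⟨fun h5 => absurd h5 h4, fun h5 => absurd h3 h5⟩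
  · rintro ⟨g, hg⟩
    refine ⟨fun v w => Γ (g v) w = true, g, ⟨fun v hv => ?_, fun v w hvw => ?_⟩, fun v => ?_⟩
    · rw [hg.1] at hv; exact absurd hv (by simp)
    · rw [hg.2 v w hvw]
      cases Γ (g w) v
      · exact Or.inl ⟨rfl, by simp⟩
      · exact Or.inr ⟨rfl, by simp⟩
    · ext w
      exact h _ _

lemma isMatrixOf_unique {n m : ℕ} {N : Fin n → Set (Fin n)} {M : Fin m → Set (Fin m)}
    {x : List Bool} (h : IsMatrixOf N x) (h' : IsMatrixOf M x) :
    ∃ e : n = m, ∀ i j : Fin n, j ∈ N i ↔ Fin.cast e j ∈ M (Fin.cast e i) := by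
  have hnm : n = m := Nat.mul_self_inj.1 (h.1.symm.trans h'.1)
  subst hnm
  exact ⟨rfl, fun i j => (h.2 i j).symm.trans (h'.2 i j)⟩

lemma mem_NLT_iff {n : ℕ} (Γ : Fin n → Fin n → Bool) (x : List Bool) (hx : x.length = n * n)
    (hΓ : ∀ i j : Fin n, x[i.1 * n + j.1]? = some (Γ i j)) : x ∈ NLT ↔ ∃ g, RealBy Γ g := by
  have hm : IsMatrixOf (fun i : Fin n => {j | Γ i j = true}) x := by
    refine ⟨hx, fun i j => ?_⟩
    rw [hΓ]; simp
  rw [← isRealised_iff (fun i : Fin n => {j | Γ i j = true}) Γ (fun i j => Iff.rfl)]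
  constructor
  · rintro ⟨m, N, hN, hr⟩
    obtain ⟨rfl, h⟩ := isMatrixOf_unique hN hm
    have : N = fun i : Fin m => {j | Γ i j = true} := by
      funext i
      ext j
      exact h i j
    rw [← this]; exact hr
  · intro h
    exact ⟨n, _, hm, h⟩

lemma bits_mem_NLT {C X : Type*} (E : C → C → Bool) (L : List C) (hL : L.Nodup) (dec : X → C)
    (hdec : Injective dec) (hmem : ∀ y, y ∈ L ↔ ∃ x, dec x = y) :
    bits E L ∈ NLT ↔ ∃ g, RealBy (fun x y : X => E (dec x) (dec y)) g := by
  have h1 : ∀ i : Fin L.length, ∃ x, dec x = L[i.1] := fun i =>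
    (hmem _).1 (List.getElem_mem i.2)
  choose f hf using h1
  have hinj : Injective f := by
    intro i j hij
    have h2 : L[i.1] = L[j.1] := by rw [← hf i, ← hf j, hij]
    exact Fin.ext ((List.Nodup.getElem_inj_iff hL).1 h2)
  have hsurj : Surjective f := by
    intro x
    obtain ⟨i, hi, hi'⟩ := List.mem_iff_getElem.1 ((hmem (dec x)).2 ⟨x, rfl⟩)
    exact ⟨⟨i, hi⟩, hdec (by rw [hf]; exact hi')⟩
  let e : Fin L.length ≃ X := Equiv.ofBijective f ⟨hinj, hsurj⟩
  have he : ∀ i, dec (e i) = L[i.1] := hf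
  rw [mem_NLT_iff (fun i j : Fin L.length => E L[i.1] L[j.1]) (bits E L) (length_bits E L)
    (fun i j => getElem?_bits E L i j)]
  constructor
  · rintro ⟨g, h1, h2⟩
    refine ⟨(e.symm.trans g).trans e, fun v => ?_, fun v w hvw => ?_⟩
    · have h3 := h1 (e.symm v)
      simp only [← he] at h3
      simpa using h3
    · have h3 := h2 (e.symm v) (e.symm w) (fun h => hvw (e.symm.injective h))
      simp only [← he] at h3
      simpa using h3
  · rintro ⟨g, h1, h2⟩
    refine ⟨(e.trans g).trans e.symm, fun v => ?_, fun v w hvw => ?_⟩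
    · simp only [← he]
      simpa using h1 (e v)
    · simp only [← he]
      simpa using h2 (e v) (e w) (fun h => hvw (e.injective h))

/-! ### The matrix of a list of triples of names -/

section

variable {ν : Type*} [DecidableEq ν]

/-- The name at a position. -/
def nmOf (T : List (ν × ν × ν)) (c : ℕ) (l : Fin 3) : Option ν :=
  match T[c]? with
  | none => none
  | some tr => match l with
    | 0 => some tr.1
    | 1 => some tr.2.1
    | 2 => some tr.2.2

/-- Codes of vertices. -/
abbrev Code : Type := (ℕ × A) ⊕ (ℕ × ℕ)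

/-- The matrix on codes. -/
def bigC (nm : ℕ → Fin 3 → ν) (K : ℕ) : Code → Code → Bool
  | .inl v, .inl w => ent nm v w
  | .inl v, .inr f => decide (7 * v.1 + blk v.2 ≤ f.1)
  | .inr f, .inl w => decide (f.1 < 7 * w.1 + blk w.2)
  | .inr f, .inr f' => if f.1 = f'.1 then rot K f.2 f'.2 else decide (f.1 < f'.1)

/-- All local vertices. -/
noncomputable def allA : List A := Finset.univ.toList

/-- The list of vertices. -/
noncomputable def verts (q : ℕ) : List Code :=
  ((List.range q).flatMap fun c => allA.map fun a => (Sum.inl (c, a) : Code)) ++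
  ((List.range (7 * q)).flatMap fun i =>
    (List.range (2 * (79 * q + 1) + 1)).map fun t => (Sum.inr (i, t) : Code))

/-- The type of vertices. -/
abbrev VT (q : ℕ) : Type := (Fin q × A) ⊕ (Fin (7 * q) × Fin (2 * (79 * q + 1) + 1))

/-- The code of a vertex. -/
def dec {q : ℕ} : VT q → Code
  | .inl v => .inl (v.1.1, v.2)
  | .inr f => .inr (f.1.1, f.2.1)

lemma dec_injective {q : ℕ} : Injective (dec (q := q)) := by
  rintro (⟨c, a⟩ | ⟨i, t⟩) (⟨c', a'⟩ | ⟨i', t'⟩) h
  · simp only [dec, Sum.inl.injEq, Prod.mk.injEq] at h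
    rw [Fin.ext h.1, h.2]
  · simp [dec] at h
  · simp [dec] at h
  · simp only [dec, Sum.inr.injEq, Prod.mk.injEq] at h
    rw [Fin.ext h.1, Fin.ext h.2]

lemma mem_verts {q : ℕ} (y : Code) : y ∈ verts q ↔ ∃ x : VT q, dec x = y := by
  unfold verts allA
  simp only [List.mem_append, List.mem_flatMap, List.mem_range, List.mem_map, Finset.mem_toList,
    Finset.mem_univ, true_and]
  constructor
  · rintro (⟨c, hc, a, rfl⟩ | ⟨i, hi, t, ht, rfl⟩)
    · exact ⟨.inl (⟨c, hc⟩, a), rfl⟩
    · exact ⟨.inr (⟨i, hi⟩, ⟨t, ht⟩), rfl⟩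
  · rintro ⟨⟨c, a⟩ | ⟨i, t⟩, rfl⟩
    · exact Or.inl ⟨c.1, c.2, a, rfl⟩
    · exact Or.inr ⟨i.1, i.2, t.1, t.2, rfl⟩

lemma nodup_verts (q : ℕ) : (verts q).Nodup := by
  unfold verts
  refine List.Nodup.append ?_ ?_ ?_
  · rw [List.nodup_flatMap]
    refine ⟨fun c _ => ?_, ?_⟩
    · refine List.Nodup.map ?_ (Finset.nodup_toList _)
      intro a b h
      simpa using h
    · refine List.Nodup.pairwise_of_forall_ne List.nodup_range ?_
      intro c _ c' _ hc x hx hx'
      simp only [List.mem_map] at hx hx'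
      obtain ⟨a, -, rfl⟩ := hx
      obtain ⟨a', -, h⟩ := hx'
      simp only [Sum.inl.injEq, Prod.mk.injEq] at h
      exact hc h.1.symm
  · rw [List.nodup_flatMap]
    refine ⟨fun c _ => ?_, ?_⟩
    · refine List.Nodup.map ?_ List.nodup_range
      intro a b h
      simpa using h
    · refine List.Nodup.pairwise_of_forall_ne List.nodup_range ?_
      intro c _ c' _ hc x hx hx'
      simp only [List.mem_map] at hx hx'
      obtain ⟨a, -, rfl⟩ := hx
      obtain ⟨a', -, h⟩ := hx'
      simp only [Sum.inr.injEq, Prod.mk.injEq] at h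
      exact hc h.1.symm
  · intro x hx hx'
    simp only [List.mem_flatMap, List.mem_map] at hx hx'
    obtain ⟨_, _, _, _, rfl⟩ := hx
    obtain ⟨_, _, _, _, h⟩ := hx'
    simp at h

lemma card_A : Fintype.card A = 79 := by decide +kernel

/-- The string of the instance. -/
noncomputable def inst (T : List (ν × ν × ν)) : List Bool :=
  bits (bigC (nmOf T) (79 * T.length + 1)) (verts T.length)

/-- The instance is realised by a tournament if and only if some assignment makes exactly one of
the names of every triple true. -/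
theorem inst_iff (T : List (ν × ν × ν)) :
    inst T ∈ NLT ↔ ∃ τ : ν → Bool, ∀ tr ∈ T,
      ((τ tr.1 = true ∧ τ tr.2.1 = false ∧ τ tr.2.2 = false) ∨
      (τ tr.1 = false ∧ τ tr.2.1 = true ∧ τ tr.2.2 = false) ∨
      (τ tr.1 = false ∧ τ tr.2.1 = false ∧ τ tr.2.2 = true)) := by
  set q := T.length with hq
  have h1 : inst T ∈ NLT ↔ ∃ g, RealBy (big (entF (nmOf T) q) (keyF q) (7 * q) (79 * q + 1)) g := by
    unfold inst
    rw [← hq, bits_mem_NLT _ _ (nodup_verts q) dec dec_injective mem_verts]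
    have : (fun x y : VT q => bigC (nmOf T) (79 * q + 1) (dec x) (dec y)) =
        big (entF (nmOf T) q) (keyF q) (7 * q) (79 * q + 1) := by
      funext x y
      rcases x with ⟨c, a⟩ | ⟨i, t⟩ <;> rcases y with ⟨c', a'⟩ | ⟨i', t'⟩ <;> rfl
    rw [this]
  rw [h1, big_iff, gadget_iff]
  · constructor
    · rintro ⟨τ, t, h⟩
      refine ⟨fun n => τ (some n), fun tr htr => ?_⟩
      obtain ⟨c, hc, rfl⟩ := List.mem_iff_getElem.1 htr
      have h2 := h ⟨c, hc⟩
      have h3 : T[c]? = some T[c] := List.getElem?_eq_getElem hc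
      have e0 := h2 0
      have e1 := h2 1
      have e2 := h2 2
      simp only [nmOf, h3] at e0 e1 e2
      generalize t ⟨c, hc⟩ = s at e0 e1 e2
      simp only
      rw [e0, e1, e2]
      fin_cases s <;> simp
    · rintro ⟨τ, h⟩
      have h2 : ∀ c : Fin q, ∃ t : Fin 3, ∀ l : Fin 3,
          (fun o : Option ν => (o.map τ).getD false) (nmOf T c.1 l) = decide (l = t) := by
        intro c
        have hc : c.1 < T.length := c.2
        have h3 : T[c.1]? = some T[c.1] := List.getElem?_eq_getElem hc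
        rcases h T[c.1] (List.getElem_mem hc) with ⟨e0, e1, e2⟩ | ⟨e0, e1, e2⟩ | ⟨e0, e1, e2⟩
        · refine ⟨0, fun l => ?_⟩
          fin_cases l <;> simp [nmOf, h3, e0, e1, e2]
        · refine ⟨1, fun l => ?_⟩
          fin_cases l <;> simp [nmOf, h3, e0, e1, e2]
        · refine ⟨2, fun l => ?_⟩
          fin_cases l <;> simp [nmOf, h3, e0, e1, e2]
      choose t ht using h2
      exact ⟨fun o => (o.map τ).getD false, t, ht⟩
  · rintro ⟨c, a⟩
    simp only [keyF]
    have := blk_lt a
    have := c.2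
    omega
  · rw [Fintype.card_prod, Fintype.card_fin, card_A]
    omega

end

end Pool.Agent.Helper97.NLT
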