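import Mathlib
import Pool.Agent.Helper97.NLT.Lang
import Pool.Agent.Helper91.PolyTime.Typed
import Pool.Agent.Helper91.PolyTime.Reduction

/-!
# The matrix of a list of triples is computable in polynomial time
-/

open Function
open Pool.Agent.Helper91.PolyTime

namespace Pool.Agent.Helper97.NLT

noncomputable instance instPEncA : PEnc A := Helper91.Reduction.finEnc _
noncomputable instance instPEncFin (n : ℕ) : PEnc (Fin n) := Helper91.Reduction.finEnc _

section

variable {ν : Type*} [DecidableEq ν] [PEnc ν] {α : Type*} [PEnc α]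

lemma sumCase {β γ δ : Type*} [PEnc β] [PEnc γ] [PEnc δ] {o : α → β ⊕ γ} {f : α → β → δ}
    {g : α → γ → δ} (ho : PTF o) (hf : PTF (fun p : α × β => f p.1 p.2))
    (hg : PTF (fun p : α × γ => g p.1 p.2)) :
    PTF (fun a => match o a with
      | .inl b => f a b
      | .inr c => g a c) := by
  refine PT.casesOn ho ?_ ?_ ?_
  · have hα : IsEmpty {x : α // enc (o x) = []} := ⟨fun x => by
      have := x.2
      cases hx : o x with
      | inl b => rw [hx, enc_inl] at this; simp at this
      | inr b => rw [hx, enc_inr] at this; simp at this⟩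
    exact ⟨fun _ _ _ => .skip, 0, 0, fun _ _ _ _ _ => trivial,
      fun _ _ _ _ _ _ x => (hα.false x).elim⟩
  · have hval : ∀ x : {x : α // ∃ l, enc (o x) = true :: l}, ∃ b, o x = .inl b := by
      intro x
      obtain ⟨l, hl⟩ := x.2
      cases hx : o x with
      | inl b => exact ⟨b, rfl⟩
      | inr b => rw [hx, enc_inr] at hl; simp at hl
    choose φ hφ using hval
    have h1 : PT (fun x : {x : α // ∃ l, enc (o x) = true :: l} => enc (x : α))
        (fun x => pr (enc (x : α)) (enc (o x)).tail) :=
      PT.pair (PT.refl _) (ho.reindex (fun x : {x : α // ∃ l, enc (o x) = true :: l} =>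
        (x : α))).tail
    have h2 := hf.reindex (fun x : {x : α // ∃ l, enc (o x) = true :: l} => ((x : α), φ x))
    have he : (fun x : {x : α // ∃ l, enc (o x) = true :: l} =>
        pr (enc (x : α)) (enc (o x)).tail) =
        fun x : {x : α // ∃ l, enc (o x) = true :: l} => enc ((x : α), φ x) := by
      funext x
      rw [hφ x, enc_inl, List.tail_cons, enc_prod]
    rw [he] at h1
    have he2 : (fun x : {x : α // ∃ l, enc (o x) = true :: l} => enc (match o x with
      | .inl b => f x b
      | .inr c => g x c)) =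
        fun x : {x : α // ∃ l, enc (o x) = true :: l} => enc (f x (φ x)) := by
      funext x; rw [hφ x]
    rw [he2]; exact h1.trans h2
  · have hval : ∀ x : {x : α // ∃ l, enc (o x) = false :: l}, ∃ b, o x = .inr b := by
      intro x
      obtain ⟨l, hl⟩ := x.2
      cases hx : o x with
      | inr b => exact ⟨b, rfl⟩
      | inl b => rw [hx, enc_inl] at hl; simp at hl
    choose φ hφ using hval
    have h1 : PT (fun x : {x : α // ∃ l, enc (o x) = false :: l} => enc (x : α))
        (fun x => pr (enc (x : α)) (enc (o x)).tail) :=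
      PT.pair (PT.refl _) (ho.reindex (fun x : {x : α // ∃ l, enc (o x) = false :: l} =>
        (x : α))).tail
    have h2 := hg.reindex (fun x : {x : α // ∃ l, enc (o x) = false :: l} => ((x : α), φ x))
    have he : (fun x : {x : α // ∃ l, enc (o x) = false :: l} =>
        pr (enc (x : α)) (enc (o x)).tail) =
        fun x : {x : α // ∃ l, enc (o x) = false :: l} => enc ((x : α), φ x) := by
      funext x
      rw [hφ x, enc_inr, List.tail_cons, enc_prod]
    rw [he] at h1
    have he2 : (fun x : {x : α // ∃ l, enc (o x) = false :: l} => enc (match o x with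
      | .inl b => f x b
      | .inr c => g x c)) =
        fun x : {x : α // ∃ l, enc (o x) = false :: l} => enc (g x (φ x)) := by
      funext x; rw [hφ x]
    rw [he2]; exact h1.trans h2

omit [DecidableEq ν] in
lemma ptf_nmOf {T : α → List (ν × ν × ν)} {c : α → ℕ} (hT : PTF T) (hc : PTF c) (l : Fin 3) :
    PTF (fun a => nmOf (T a) (c a) l) := by
  have h := PTF.optCase (o := fun a => (T a)[c a]?) (n := fun _ : α => (none : Option ν))
    (s := fun (_ : α) (tr : ν × ν × ν) => match l with
      | 0 => some tr.1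
      | 1 => some tr.2.1
      | 2 => some tr.2.2) (PTF.getElem? hc hT) (PTF.const _) (by
    fin_cases l
    · exact PTF.some PTF.id.snd.fst
    · exact PTF.some PTF.id.snd.snd.fst
    · exact PTF.some PTF.id.snd.snd.snd)
  refine h.of_eq fun a => ?_
  unfold nmOf
  cases (T a)[c a]? <;> rfl

lemma ptf_tie {e : α → Bool} {p p' : α → ℕ} (he : PTF e) (hp : PTF p) (hp' : PTF p')
    (u u' : Fin 3) : PTF (fun a => tie (e a) (p a) (p' a) u u') := by
  have h1 : PTF (fun a => if p a = p' a then decide (u' = u + 1) else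
      cond (e a) (if p a < p' a then decide (u + u' ≠ 0) else decide (u + u' = 0))
        (decide (p a < p' a))) := by
    refine PTF.ite (PTF.eq hp hp') (PTF.const _) ?_
    refine PTF.cond he ?_ (PTF.lt hp hp')
    exact PTF.ite (PTF.lt hp hp') (PTF.const _) (PTF.const _)
  refine h1.of_eq fun a => ?_
  unfold tie
  cases e a <;> simp

lemma ptf_ent {T : α → List (ν × ν × ν)} {x y : α → ℕ × A} (hT : PTF T) (hx : PTF x)
    (hy : PTF y) : PTF (fun a => ent (nmOf (T a)) (x a) (y a)) := by
  have h : PTF (fun a => (fun (s : A × A) (a : α) =>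
      ent (nmOf (T a)) ((x a).1, s.1) ((y a).1, s.2)) ((x a).2, (y a).2) a) := by
    refine PTF.finCase (α := α) (δ := A × A) (d := fun a => ((x a).2, (y a).2))
      (f := fun (s : A × A) (a : α) => ent (nmOf (T a)) ((x a).1, s.1) ((y a).1, s.2))
      (PTF.pair hx.snd hy.snd) ?_
    rintro ⟨s, s'⟩
    have key : PTF (fun a => if (x a).1 = (y a).1 then loc s s' else
        decide ((x a).1 < (y a).1)) :=
      PTF.ite (PTF.eq hx.fst hy.fst) (PTF.const _) (PTF.lt hx.fst hy.fst)
    cases s with
    | C k => exact key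
    | O l s k => exact key
    | V l u =>
      cases s' with
      | C k => exact key
      | O l s k => exact key
      | V l' u' =>
        simp only [ent]
        refine ptf_tie (PTF.eq (ptf_nmOf hT hx.fst l) (ptf_nmOf hT hy.fst l')) ?_ ?_ u u'
        · exact PTF.add (PTF.mul (PTF.const 3) hx.fst) (PTF.const _)
        · exact PTF.add (PTF.mul (PTF.const 3) hy.fst) (PTF.const _)
  exact h

omit [DecidableEq ν] [PEnc ν] in
lemma ptf_rot {K t t' : α → ℕ} (hK : PTF K) (ht : PTF t) (ht' : PTF t') :
    PTF (fun a => rot (K a) (t a) (t' a)) := by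
  unfold rot
  exact PTF.or (PTF.and (PTF.lt ht ht') (PTF.le ht' (PTF.add ht hK)))
    (PTF.lt (PTF.add ht' hK) ht)

lemma ptf_blk {x : α → A} (hx : PTF x) : PTF (fun a => blk (x a)) :=
  (PTF.ofFinite blk).comp hx

/-- A row of the matrix at an inner vertex. -/
def rowI (nm : ℕ → Fin 3 → ν) (v : ℕ × A) : Code → Bool
  | .inl w => ent nm v w
  | .inr f => decide (7 * v.1 + blk v.2 ≤ f.1)

/-- A row of the matrix at a filler vertex. -/
def rowO (K : ℕ) (f : ℕ × ℕ) : Code → Bool
  | .inl w => decide (f.1 < 7 * w.1 + blk w.2)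
  | .inr f' => if f.1 = f'.1 then rot K f.2 f'.2 else decide (f.1 < f'.1)

lemma ptf_rowI {T : α → List (ν × ν × ν)} {v : α → ℕ × A} {y : α → Code} (hT : PTF T)
    (hv : PTF v) (hy : PTF y) : PTF (fun a => rowI (nmOf (T a)) (v a) (y a)) := by
  have h2 := sumCase (o := y)
    (f := fun p w => ent (nmOf (T p)) (v p) w)
    (g := fun p f => decide (7 * (v p).1 + blk (v p).2 ≤ f.1)) hy
    (ptf_ent (hT.comp PTF.id.fst) (hv.comp PTF.id.fst) PTF.id.snd)
    (PTF.le (PTF.add (PTF.mul (PTF.const 7) (hv.comp PTF.id.fst).fst)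
          (ptf_blk (hv.comp PTF.id.fst).snd)) PTF.id.snd.fst)
  refine h2.of_eq fun a => ?_
  cases y a <;> rfl

omit [DecidableEq ν] [PEnc ν] in
lemma ptf_rowO {K : α → ℕ} {v : α → ℕ × ℕ} {y : α → Code}
    (hK : PTF K) (hv : PTF v) (hy : PTF y) : PTF (fun a => rowO (K a) (v a) (y a)) := by
  have h3 := sumCase (o := y)
    (f := fun p w => decide ((v p).1 < 7 * w.1 + blk w.2))
    (g := fun p f' => if (v p).1 = f'.1 then rot (K p) (v p).2 f'.2
          else decide ((v p).1 < f'.1)) hy
    (PTF.lt (hv.comp PTF.id.fst).fst (PTF.add (PTF.mul (PTF.const 7) PTF.id.snd.fst)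
          (ptf_blk PTF.id.snd.snd)))
    (PTF.ite (PTF.eq (hv.comp PTF.id.fst).fst PTF.id.snd.fst)
          (ptf_rot (hK.comp PTF.id.fst) (hv.comp PTF.id.fst).snd PTF.id.snd.snd)
          (PTF.lt (hv.comp PTF.id.fst).fst PTF.id.snd.fst))
  refine h3.of_eq fun a => ?_
  cases y a <;> rfl

lemma ptf_bigC {T : α → List (ν × ν × ν)} {K : α → ℕ} {x y : α → Code} (hT : PTF T)
    (hK : PTF K) (hx : PTF x) (hy : PTF y) :
    PTF (fun a => bigC (nmOf (T a)) (K a) (x a) (y a)) := by
  have h1 := sumCase (o := x) (f := fun p v => rowI (nmOf (T p)) v (y p))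
    (g := fun p f => rowO (K p) f (y p)) hx
    (ptf_rowI (hT.comp PTF.id.fst) PTF.id.snd (hy.comp PTF.id.fst))
    (ptf_rowO (hK.comp PTF.id.fst) PTF.id.snd (hy.comp PTF.id.fst))
  refine h1.of_eq fun a => ?_
  cases x a <;> cases y a <;> rfl

lemma ptf_verts {q : α → ℕ} (hq : PTF q) : PTF (fun a => verts (q a)) := by
  unfold verts
  refine PTF.append ?_ ?_
  · refine PTF.flatMap (f := fun _ c => allA.map fun a => (Sum.inl (c, a) : Code))
      (PTF.range hq) ?_
    exact PTF.map (l := fun _ : α × ℕ => allA) (f := fun p a => (Sum.inl (p.2, a) : Code))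
      (PTF.const _) (PTF.inl (PTF.pair PTF.id.fst.snd PTF.id.snd))
  · refine PTF.flatMap (l := fun a => List.range (7 * q a))
      (f := fun a i => (List.range (2 * (79 * q a + 1) + 1)).map fun t => (Sum.inr (i, t) : Code))
      (PTF.range (PTF.mul (PTF.const 7) hq)) ?_
    refine PTF.map (l := fun p : α × ℕ => List.range (2 * (79 * q p.1 + 1) + 1))
      (f := fun p t => (Sum.inr (p.2, t) : Code)) (PTF.range ?_)
      (PTF.inr (PTF.pair PTF.id.fst.snd PTF.id.snd))
    exact PTF.add (PTF.mul (PTF.const 2) (PTF.add (PTF.mul (PTF.const 79)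
      (hq.comp PTF.id.fst)) (PTF.const 1))) (PTF.const 1)

/-- The matrix of the list of triples is computable in polynomial time. -/
theorem ptf_inst {T : α → List (ν × ν × ν)} (hT : PTF T) : PTF (fun a => inst (T a)) := by
  unfold inst bits
  have hlen : PTF (fun a => (T a).length) := PTF.length hT
  refine PTF.flatMap (l := fun a => verts (T a).length)
    (f := fun a v => (verts (T a).length).map (bigC (nmOf (T a)) (79 * (T a).length + 1) v))
    (ptf_verts hlen) ?_
  refine PTF.map (l := fun p : α × Code => verts (T p.1).length)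
    (f := fun p w => bigC (nmOf (T p.1)) (79 * (T p.1).length + 1) p.2 w)
    (ptf_verts (hlen.comp PTF.id.fst)) ?_
  exact ptf_bigC (T := fun p : (α × Code) × Code => T p.1.1)
    (K := fun p : (α × Code) × Code => 79 * (T p.1.1).length + 1)
    (x := fun p => p.1.2) (y := fun p => p.2) (hT.comp PTF.id.fst.fst)
    (PTF.add (PTF.mul (PTF.const 79) (hlen.comp PTF.id.fst.fst)) (PTF.const 1))
    PTF.id.fst.snd PTF.id.snd

end

end Pool.Agent.Helper97.NLT
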